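import Pool.Agent.NBT.StmtsA

/-!
# NBT squad (MP_e54c4c_gt), row ZMB (helper39)
-/

set_option autoImplicit false

open Matrix Filter Topology

namespace Pool.Agent.NBT.H39

open Pool.Agent.PFS Pool.Agent.PFJ Pool.Agent.NBT

theorem zmb (hTBF : TbfStmt) (hPJE : PjeStmt) (hPJF : PjfStmt) (hMVB : MvbStmt)
    (hSXN : SxnStmt) (hZPR : ZprStmt) (hZUP : ZupStmt) : ZmbStmt := by
  intro n C Γ Γ₀ K T c h w hw S θ g s W P Q hθ hg hs hZ k x hmv hk hS
  have hcc := h.cc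
  obtain ⟨_, _, _, _, hmono, hmem, _⟩ := hTBF n C Γ Γ₀ K T c h w hw
  obtain ⟨_, _, _, _, _, hmemW, _⟩ := hTBF n C Γ Γ₀ K T c h W hZ.tw
  obtain ⟨hhelp, _, hJ⟩ := hSXN n C Γ Γ₀ K T c h w hw k x hmv
  have hxS : x ∈ BI C w S := (hJ S hk).mp hS
  obtain ⟨⟨_, _, hQ1⟩, ⟨_, hQc⟩, _, _, hQ5⟩ :=
    hZPR n C Γ Γ₀ K T c h w hw S θ g s W P Q hθ hg hs hZ
  have hT : T (Function.update W k (Q x)) :=
    (hZUP n C Γ Γ₀ K T c h w hw S θ g s W P Q hθ hg hs hZ).2 k hk x hxS hmv.mem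
  have hxcl : x ∈ closure C := ((hMVB n C Γ Γ₀ K T c h w hw k).1 x hmv).1
  have hWk : Q (w k) = W k := hQ1 k hk
  have hQinj : ∀ y ∈ BI C w S, Q y = 0 → y = 0 := by
    intro y hy h0
    refine hcc.salient y (hZ.injQ y hy ?_) (hZ.injQ (-y) (Submodule.neg_mem _ hy) ?_)
    · rw [h0]; exact hcc.zero_cl
    · rw [map_neg, h0, neg_zero]; exact hcc.zero_cl
  have hA : ∀ i ∈ S, i ≠ k → (Sx C W k (Q x) i ↔ Sx C w k x i) := by
    intro i hi hik
    obtain ⟨q, hq⟩ := hPJE n C Γ Γ₀ K T c h w hw {k, i}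
    obtain ⟨qW, hqW⟩ := hPJE n C Γ Γ₀ K T c h W hZ.tw {k, i}
    have hsub : ({k, i} : Finset (Fin K)) ⊆ S := by
      intro j hj
      rcases Finset.mem_insert.mp hj with rfl | hj
      · exact hk
      · rw [Finset.mem_singleton.mp hj]; exact hi
    have hcomm : qW (Q x) = Q (q x) := hQ5 {k, i} hsub q qW hq hqW x hxS
    constructor
    · rintro ⟨_, p, hp, hne⟩
      have hpe : p = qW := (hPJF n C Γ Γ₀ K T c h W hZ.tw {k, i} qW hqW).2.2.1 p hp
      refine ⟨hik, q, hq, fun a ha => ?_⟩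
      apply hne a
      rw [hpe, hcomm, ha, map_smul, hWk]
    · rintro ⟨_, p, hp, hne⟩
      have hpe : p = q := (hPJF n C Γ Γ₀ K T c h w hw {k, i} q hq).2.2.1 p hp
      refine ⟨hik, qW, hqW, fun a ha => ?_⟩
      apply hne a
      rw [hpe]
      rw [hcomm, ← hWk, ← map_smul] at ha
      have h1 : q x - a • w k ∈ BI C w S :=
        Submodule.sub_mem _ (hmono _ _ hsub (hq.mem x))
          (Submodule.smul_mem _ _ ((hmem k S).mpr hk))
      have h2 := hQinj _ h1 (by rw [map_sub, ha, sub_self])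
      exact sub_eq_zero.mp h2
  have hB : ∀ i, i ∉ S → ¬ Sx C W k (Q x) i := by
    rintro i hi ⟨_, p, hp, hne⟩
    have h1 : Q x ∈ BI C W S := by
      rw [← hZ.mapQ S (Finset.Subset.refl S)]
      exact Submodule.mem_map_of_mem hxS
    obtain ⟨a, ha⟩ := (hMVB n C Γ Γ₀ K T c h W hZ.tw k).2 S hk i hi p hp (Q x) h1
      (hQc x hxS hxcl)
    exact hne a ha
  have hiff : ∀ i, Sx C W k (Q x) i ↔ Sx C w k x i := by
    intro i
    by_cases hi : i ∈ S
    · by_cases hik : i = k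
      · constructor
        · intro h1; exact absurd hik h1.1
        · intro h1; exact absurd hik h1.1
      · exact hA i hi hik
    · constructor
      · intro h1; exact absurd h1 (hB i hi)
      · intro h1; exact absurd (hS i h1) hi
  refine ⟨⟨hT, ?_⟩, hiff⟩
  intro a ha
  obtain ⟨i, hi⟩ := hhelp
  obtain ⟨_, p, hp, hne⟩ := (hiff i).mpr hi
  apply hne a
  have h1 : W k ∈ BI C W {k, i} := (hmemW k {k, i}).mpr (Finset.mem_insert_self _ _)
  rw [ha, map_smul, hp.idB _ h1]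

end Pool.Agent.NBT.H39
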