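import Pool.Agent.NBT.StmtsC

/-!
# NBT squad (MP_e54c4c_gt), row NRF (helper39)
-/

set_option autoImplicit false

open Matrix Filter Topology

namespace Pool.Agent.NBT.H39

open Pool.Agent.PFS Pool.Agent.PFJ Pool.Agent.NBT

theorem nrfF : NrfStmt := by
  intro n C Γ K h
  refine ⟨?_, ?_, ?_, ?_, ?_⟩
  · intro ε δ w z hεδ hw hN i
    obtain ⟨h1, h2⟩ := hN i
    have h3 : (δ - ε) • (∑ m, w m) ∈ closure C := h.cl_smul hw (by linarith)
    constructor
    · have := h.cl_add h1 h3
      have e : ε • (∑ m, w m) - (z i - w i) + (δ - ε) • (∑ m, w m) =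
          δ • (∑ m, w m) - (z i - w i) := by
        rw [sub_smul]; abel
      rwa [e] at this
    · have := h.cl_add h2 h3
      have e : ε • (∑ m, w m) + (z i - w i) + (δ - ε) • (∑ m, w m) =
          δ • (∑ m, w m) + (z i - w i) := by
        rw [sub_smul]; abel
      rwa [e] at this
  · intro ε x y w hε hw hx hy
    have hs : Tendsto (fun m => ε • ∑ l, x m l) atTop (𝓝 (ε • ∑ l, w l)) :=
      (tendsto_finset_sum _ fun l _ => hx l).const_smul ε
    have hp : ε • ∑ l, w l ∈ C := h.smul _ hw ε hε
    have hall : ∀ i, ∀ᶠ m in atTop,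
        ε • (∑ l, x m l) - (y m i - x m i) ∈ closure C ∧
          ε • (∑ l, x m l) + (y m i - x m i) ∈ closure C := by
      intro i
      have hd : Tendsto (fun m => y m i - x m i) atTop (𝓝 (w i - w i)) := (hy i).sub (hx i)
      have h1 : Tendsto (fun m => ε • (∑ l, x m l) - (y m i - x m i)) atTop
          (𝓝 (ε • (∑ l, w l) - (w i - w i))) := hs.sub hd
      have h2 : Tendsto (fun m => ε • (∑ l, x m l) + (y m i - x m i)) atTop
          (𝓝 (ε • (∑ l, w l) + (w i - w i))) := hs.add hd
      rw [sub_self, sub_zero] at h1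
      rw [sub_self, add_zero] at h2
      filter_upwards [h1.eventually (h.isOpen.mem_nhds hp), h2.eventually (h.isOpen.mem_nhds hp)]
        with m a b
      exact ⟨subset_closure a, subset_closure b⟩
    exact eventually_all.mpr hall
  · intro ε w z g hg s hs hN i
    obtain ⟨h1, h2⟩ := hN i
    constructor
    · have := (h.sact_cl_iff hg hs).mpr h1
      rw [CC.act_sub, CC.act_sub, CC.act_smul, CC.act_sum, smul_sub, smul_sub,
        smul_comm s ε, Finset.smul_sum] at this
      exact this
    · have := (h.sact_cl_iff hg hs).mpr h2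
      rw [CC.act_add, CC.act_sub, CC.act_smul, CC.act_sum, smul_add, smul_sub,
        smul_comm s ε, Finset.smul_sum] at this
      exact this
  · intro ε w z hN
    have h1 : ∑ i : Fin K, (ε • (∑ m, w m) + (z i - w i)) ∈ closure C :=
      h.cl_sum fun i _ => (hN i).2
    have e : ∑ i : Fin K, (ε • (∑ m, w m) + (z i - w i)) =
        ∑ i, z i - (1 - (K : ℝ) * ε) • ∑ i, w i := by
      rw [Finset.sum_add_distrib, Finset.sum_const, Finset.card_univ, Fintype.card_fin,
        Finset.sum_sub_distrib, sub_smul, one_smul, mul_smul, Nat.cast_smul_eq_nsmul]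
      abel
    rwa [e] at h1
  · intro ε x y w hε hN hx i
    obtain ⟨B, _, hB⟩ := h.normal
    have hs : Tendsto (fun m => ∑ l, x m l) atTop (𝓝 (∑ l, w l)) :=
      tendsto_finset_sum _ fun l _ => hx l
    have h1 : Tendsto (fun m => ε m • ∑ l, x m l) atTop (𝓝 0) := by
      have := hε.smul hs
      rwa [zero_smul] at this
    have h2 : Tendsto (fun m => B * ‖(2 : ℝ) • (ε m • ∑ l, x m l)‖) atTop (𝓝 0) := by
      have := ((h1.const_smul (2 : ℝ)).norm).const_mul B
      simpa using this
    have h3 : Tendsto (fun m => ε m • (∑ l, x m l) + (y m i - x m i)) atTop (𝓝 0) := by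
      apply squeeze_zero_norm _ h2
      intro m
      apply hB _ _ (hN m i).2
      have e : (2 : ℝ) • (ε m • ∑ l, x m l) - (ε m • (∑ l, x m l) + (y m i - x m i)) =
          ε m • (∑ l, x m l) - (y m i - x m i) := by
        rw [two_smul]; abel
      rw [e]
      exact (hN m i).1
    have h4 : Tendsto (fun m => ε m • (∑ l, x m l) + (y m i - x m i) - ε m • (∑ l, x m l) + x m i)
        atTop (𝓝 (0 - 0 + w i)) := (h3.sub h1).add (hx i)
    rw [sub_zero, zero_add] at h4
    refine h4.congr fun m => ?_
    abel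

end Pool.Agent.NBT.H39
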